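import Pool.Agent.Y65.PS.Word

set_option autoImplicit false

open Matrix
open scoped MatrixGroups

namespace Pool.Agent.Y65.PS

open Pool.Agent.W332.Half (dg dg_mul dg_one dgHom exists_diag comm_dg half_card)

/-- The class in `PSL(2, K)` of a matrix in `SL(2, K)`. -/
abbrev cls {K : Type} [Field K] (g : SL(2, K)) : PSL(2, K) := QuotientGroup.mk g

/-- two matrices with the same class in `PSL` differ by a sign -/
lemma cls_eq {K : Type} [Field K] {A B : SL(2, K)} (h : cls A = cls B) :
    ∃ r : K, r ^ 2 = 1 ∧ (B : Matrix (Fin 2) (Fin 2) K) = r • (A : Matrix (Fin 2) (Fin 2) K) := by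
  have h1 := QuotientGroup.eq.1 h
  obtain ⟨r, hr, hs⟩ := Matrix.SpecialLinearGroup.mem_center_iff.1 h1
  refine ⟨r, by simpa using hr, ?_⟩
  have h2 : B = A * (A⁻¹ * B) := by group
  rw [h2, Matrix.SpecialLinearGroup.coe_mul, ← hs]
  rw [Matrix.scalar_apply, ← Matrix.smul_one_eq_diagonal, Matrix.mul_smul, Matrix.mul_one]

lemma cls_eq' {K : Type} [Field K] {A B : SL(2, K)} {r : K} (hr : r ^ 2 = 1)
    (h : (B : Matrix (Fin 2) (Fin 2) K) = r • (A : Matrix (Fin 2) (Fin 2) K)) : cls A = cls B := by
  apply QuotientGroup.eq.2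
  rw [Matrix.SpecialLinearGroup.mem_center_iff]
  refine ⟨r, by simpa using hr, ?_⟩
  rw [Matrix.SpecialLinearGroup.coe_mul, h, Matrix.mul_smul, ← Matrix.SpecialLinearGroup.coe_mul,
    inv_mul_cancel, Matrix.SpecialLinearGroup.coe_one, Matrix.scalar_apply,
    Matrix.smul_one_eq_diagonal]

/-- Classes of regular semisimple elements in `PSL(2, K)`, `K` of characteristic `p`: the order is
(nonzero and) prime to `p`, and the centraliser in `PSL(2)` over the algebraic closure of `K` is
the image of a conjugate of the one-dimensional torus of all diagonal matrices. -/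
def IsRegSemisimple (p : ℕ) {K : Type} [Field K] (g : SL(2, K)) : Prop :=
  IsOfFinOrder (cls g) ∧ (orderOf (cls g)).Coprime p ∧
    ∃ h : SL(2, AlgebraicClosure K), ∀ z : SL(2, AlgebraicClosure K),
      cls z * cls (Matrix.SpecialLinearGroup.map (algebraMap K (AlgebraicClosure K)) g) =
          cls (Matrix.SpecialLinearGroup.map (algebraMap K (AlgebraicClosure K)) g) * cls z ↔
        ∃ u : (AlgebraicClosure K)ˣ, cls z = cls (h * dg u * h⁻¹)

/-- A matrix of trace different from `0, 2, -2` is regular semisimple. -/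
lemma regular (p : ℕ) [hp : Fact p.Prime] {K : Type} [Field K] [Finite K] [CharP K p] (g : SL(2, K))
    (ht0' : (g : Matrix (Fin 2) (Fin 2) K).trace ≠ 0)
    (ht4' : (g : Matrix (Fin 2) (Fin 2) K).trace ^ 2 ≠ 4) : IsRegSemisimple p g := by
  set L := AlgebraicClosure K with hL
  have hch : CharP L p := charP_of_injective_algebraMap (algebraMap K L).injective p
  set φ := Matrix.SpecialLinearGroup.map (n := Fin 2) (algebraMap K L) with hφ
  have hφi : Function.Injective φ := by
    intro A B hAB
    apply Subtype.ext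
    ext i j
    have := congrArg (fun M : SL(2, L) => (M : Matrix (Fin 2) (Fin 2) L) i j) hAB
    exact (algebraMap K L).injective this
  set t : L := algebraMap K L (g : Matrix (Fin 2) (Fin 2) K).trace with htt
  have ht0 : t ≠ 0 := by
    rw [htt]
    exact (map_ne_zero _).2 ht0'
  have ht4 : t ^ 2 ≠ 4 := by
    intro h
    apply ht4'
    apply (algebraMap K L).injective
    rw [map_pow, ← htt, h]
    exact (map_ofNat (algebraMap K L) 4).symm
  -- an eigenvalue
  obtain ⟨l, hl⟩ : ∃ l : L, l ^ 2 - t * l + 1 = 0 := by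
    have hdeg : (Polynomial.X ^ 2 - Polynomial.C t * Polynomial.X + 1 : Polynomial L).degree ≠ 0 := by
      have : (Polynomial.X ^ 2 - Polynomial.C t * Polynomial.X + 1 : Polynomial L).degree = 2 := by
        compute_degree!
      rw [this]
      norm_num
    obtain ⟨l, hl⟩ := IsAlgClosed.exists_root _ hdeg
    refine ⟨l, ?_⟩
    simpa [Polynomial.IsRoot] using hl
  have hl0 : l ≠ 0 := by
    rintro rfl
    simp at hl
  set u : Lˣ := Units.mk0 l hl0 with hu
  have hul : (u : L) = l := rfl
  have hinv : ((u⁻¹ : Lˣ) : L) = t - l := by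
    have h1 : (u : L) * ((u⁻¹ : Lˣ) : L) = 1 := by simp
    have h3 : l * ((u⁻¹ : Lˣ) : L) = l * (t - l) := by
      rw [hul] at h1
      linear_combination h1 + hl
    exact mul_left_cancel₀ hl0 h3
  have hne : (u : L) ≠ ((u⁻¹ : Lˣ) : L) := by
    rw [hinv, hul]
    intro h
    apply ht4
    linear_combination (-4) * hl + (2 * l - t) * h
  have htr : ((φ g : SL(2, L)) : Matrix (Fin 2) (Fin 2) L).trace = u + ((u⁻¹ : Lˣ) : L) := by
    rw [hinv, hul, htt, Matrix.trace_fin_two, Matrix.trace_fin_two, map_add]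
    simp [hφ]
  obtain ⟨h, hh⟩ := exists_diag (φ g) u hne htr
  have hfin : Finite SL(2, K) := by
    have := Fintype.ofFinite K
    classical
    exact Subtype.finite
  have hof : IsOfFinOrder g := isOfFinOrder_of_finite g
  have hpow : ∀ n : ℕ, φ (g ^ n) = h * dg (u ^ n) * h⁻¹ := by
    intro n
    rw [map_pow, hh, conj_pow]
    congr 2
    exact (map_pow (dgHom L) u n).symm
  have hcop : ¬ p ∣ orderOf g := by
    rintro ⟨m, hm⟩
    have hm0 : 0 < orderOf g := hof.orderOf_pos
    have hp2 := hp.out.two_le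
    have h1 : u ^ (p * m) = 1 := by
      have h3 := hpow (orderOf g)
      rw [pow_orderOf_eq_one, map_one, hm] at h3
      have h4 : dg (u ^ (p * m)) = 1 := by
        have h5 : h * dg (u ^ (p * m)) * h⁻¹ = 1 := h3.symm
        have h6 : h * dg (u ^ (p * m)) = h := by rwa [mul_inv_eq_one] at h5
        exact mul_eq_left.1 h6
      have h7 := congrArg (fun M : SL(2, L) => (M : Matrix (Fin 2) (Fin 2) L) 0 0) h4
      simp [dg] at h7
      apply Units.ext
      simpa using h7
    have h3 : u ^ m = 1 := by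
      apply Units.ext
      have h4 : ((u : L) ^ m) ^ p = 1 := by
        have h6 := congrArg (fun x : Lˣ => (x : L)) h1
        rw [← pow_mul, mul_comm m p]
        simpa using h6
      rw [Units.val_pow_eq_pow_val, Units.val_one]
      have h5 : ((u : L) ^ m - 1) ^ p = 0 := by
        rw [sub_pow_char, h4, one_pow, sub_self]
      exact sub_eq_zero.1 (pow_eq_zero_iff hp.out.ne_zero |>.1 h5)
    have h4 : g ^ m = 1 := by
      apply hφi
      rw [hpow, h3, dg_one, mul_one, mul_inv_cancel, map_one]
    have h5 := orderOf_dvd_of_pow_eq_one h4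
    have hmpos : 0 < m := by
      rcases Nat.eq_zero_or_pos m with h0 | h0
      · rw [h0] at hm
        omega
      · exact h0
    have h6 := Nat.le_of_dvd hmpos h5
    rw [hm] at h6
    nlinarith
  have hdvd : orderOf (cls g) ∣ orderOf g := by
    apply orderOf_dvd_of_pow_eq_one
    have : (cls g) ^ orderOf g = cls (g ^ orderOf g) := rfl
    rw [this, pow_orderOf_eq_one]
    rfl
  refine ⟨?_, ?_, h, ?_⟩
  · exact orderOf_pos_iff.1 (Nat.pos_of_dvd_of_pos hdvd hof.orderOf_pos)
  · rw [Nat.coprime_comm]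
    exact (Nat.Prime.coprime_iff_not_dvd hp.out).2 fun h8 => hcop (h8.trans hdvd)
  · intro z
    change cls z * cls (φ g) = cls (φ g) * cls z ↔ _
    have hcomm : ∀ z' : SL(2, L), z' * φ g = φ g * z' ↔ ∃ v : Lˣ, z' = h * dg v * h⁻¹ := by
      intro z'
      rw [hh]
      have h1 : z' * (h * dg u * h⁻¹) = h * dg u * h⁻¹ * z' ↔
          (h⁻¹ * z' * h) * dg u = dg u * (h⁻¹ * z' * h) := by
        constructor
        · intro h3
          have h4 := congrArg (fun a => h⁻¹ * a * h) h3
          simpa [mul_assoc] using h4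
        · intro h3
          have h4 := congrArg (fun a => h * a * h⁻¹) h3
          simpa [mul_assoc] using h4
      rw [h1, comm_dg u hne]
      refine exists_congr fun v => ?_
      constructor
      · intro h3
        rw [← h3]
        group
      · intro h3
        rw [h3]
        group
    constructor
    · intro h1
      have h2 : cls (φ g) = cls (z * φ g * z⁻¹) := by
        have h3 : cls (z * φ g * z⁻¹) = cls z * cls (φ g) * (cls z)⁻¹ := rfl
        rw [h3, h1, mul_inv_cancel_right]
      obtain ⟨r, hr, hm⟩ := cls_eq h2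
      have htr2 : ((z * φ g * z⁻¹ : SL(2, L)) : Matrix (Fin 2) (Fin 2) L).trace =
          ((φ g : SL(2, L)) : Matrix (Fin 2) (Fin 2) L).trace := by
        rw [Matrix.SpecialLinearGroup.coe_mul, Matrix.SpecialLinearGroup.coe_mul,
          Matrix.trace_mul_comm, ← mul_assoc, ← Matrix.SpecialLinearGroup.coe_mul, inv_mul_cancel,
          Matrix.SpecialLinearGroup.coe_one, one_mul]
      rw [hm, Matrix.trace_smul, smul_eq_mul] at htr2
      have htr3 : ((φ g : SL(2, L)) : Matrix (Fin 2) (Fin 2) L).trace = t := by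
        rw [htr, hinv, hul]
        ring
      rw [htr3] at htr2
      have hr1 : r = 1 := mul_right_cancel₀ ht0 (by rw [htr2, one_mul])
      rw [hr1, one_smul] at hm
      have h4 : z * φ g * z⁻¹ = φ g := Subtype.ext hm
      obtain ⟨v, hv⟩ := (hcomm z).1 (by rwa [mul_inv_eq_iff_eq_mul] at h4)
      exact ⟨v, by rw [hv]⟩
    · rintro ⟨v, hv⟩
      have h1 := (hcomm (h * dg v * h⁻¹)).2 ⟨v, rfl⟩
      rw [hv]
      exact congrArg (fun a : SL(2, L) => cls a) h1

/-- Values on `PSL(2, K)` are classes of values on `SL(2, K)`. -/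
lemma lift_cls {K : Type} [Field K] {d : ℕ} (x : Fin d → PSL(2, K)) (w : FreeGroup (Fin d)) :
    ∃ X : Fin d → SL(2, K), FreeGroup.lift x w = cls (FreeGroup.lift X w) := by
  choose X hX using fun i => QuotientGroup.mk_surjective (x i)
  refine ⟨X, ?_⟩
  have h : FreeGroup.lift x = (QuotientGroup.mk' _).comp (FreeGroup.lift X) := by
    ext i
    simp [hX]
  rw [h]
  rfl

/-- The embedding of the free group on two letters. -/
def emb {d : ℕ} (hd : 2 ≤ d) : FreeGroup (Fin 2) →* FreeGroup (Fin d) :=
  FreeGroup.map (Fin.castLE hd)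

lemma lift_emb {d : ℕ} (hd : 2 ≤ d) {G : Type*} [Group G] (X : Fin d → G) (w : FreeGroup (Fin 2)) :
    FreeGroup.lift X (emb hd w) =
      FreeGroup.lift ![X (Fin.castLE hd 0), X (Fin.castLE hd 1)] w := by
  have h : (FreeGroup.lift X).comp (emb hd) =
      FreeGroup.lift ![X (Fin.castLE hd 0), X (Fin.castLE hd 1)] := by
    ext i
    fin_cases i <;> simp [emb]
  rw [← h]
  rfl

/-- The embedded word is not a proper power either. -/
lemma emb_not_pow {d : ℕ} (hd : 2 ≤ d) {w : FreeGroup (Fin 2)}
    (hw : ∀ (v : FreeGroup (Fin 2)) (k : ℕ), 2 ≤ k → v ^ k ≠ w) (v : FreeGroup (Fin d)) (k : ℕ)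
    (hk : 2 ≤ k) : v ^ k ≠ emb hd w := by
  intro h
  let r : FreeGroup (Fin d) →* FreeGroup (Fin 2) :=
    FreeGroup.lift fun i => if i.1 = 0 then FreeGroup.of 0 else if i.1 = 1 then FreeGroup.of 1 else 1
  have hr : ∀ w : FreeGroup (Fin 2), r (emb hd w) = w := by
    intro w
    have h1 : r.comp (emb hd) = MonoidHom.id _ := by
      ext i
      fin_cases i <;> simp [emb, r]
    exact congrArg (fun f : FreeGroup (Fin 2) →* FreeGroup (Fin 2) => f w) h1
  apply hw (r v) k hk
  rw [← map_pow, h, hr]

/-- Counting: a quarter of all traces. -/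
lemma quarter {K : Type} [Field K] [Finite K] (h2 : (2 : K) ≠ 0) :
    Nat.card K ≤ 4 * {t : K | t ≠ 0 ∧ ¬ IsSquare (2 + t) ∧ ¬ IsSquare (2 - t)}.ncard + 5 := by
  classical
  have := Fintype.ofFinite K
  have hch : ringChar K ≠ 2 := by
    intro h
    apply h2
    have := CharP.cast_eq_zero K (ringChar K)
    rw [h] at this
    exact_mod_cast this
  set χ := quadraticChar K with hχ
  have hχ1 : χ ≠ 1 := quadraticChar_ne_one hch
  have hsum : ∑ t : K, χ t = 0 := quadraticChar_sum_zero hch
  have hs1 : ∑ t : K, χ (2 + t) = 0 := by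
    rw [← hsum]
    exact Equiv.sum_comp (Equiv.addLeft (2 : K)) (fun t => χ t)
  have hs2 : ∑ t : K, χ (2 - t) = 0 := by
    rw [← hsum]
    exact Equiv.sum_comp (Equiv.subLeft (2 : K)) (fun t => χ t)
  have h4 : (4 : K) ≠ 0 := by
    have : (4 : K) = 2 * 2 := by norm_num
    rw [this]
    exact mul_ne_zero h2 h2
  have hs3 : ∑ t : K, χ (2 + t) * χ (2 - t) = -χ (-1) := by
    have hJ : jacobiSum χ χ⁻¹ = -χ (-1) := jacobiSum_nontrivial_inv hχ1
    rw [(quadraticChar_isQuadratic K).inv] at hJ
    rw [← hJ, jacobiSum]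
    let e : K ≃ K :=
      { toFun := fun t => (2 + t) / 4
        invFun := fun x => 4 * x - 2
        left_inv := fun t => by field_simp; ring
        right_inv := fun x => by field_simp; ring }
    refine Eq.trans ?_ (Equiv.sum_comp e (fun x => χ x * (quadraticChar K) (1 - x)))
    apply Finset.sum_congr rfl
    intro t _
    have e1 : χ (4⁻¹ : K) = 1 := by
      have : (4⁻¹ : K) = (2⁻¹) ^ 2 := by
        rw [inv_pow]
        norm_num
      rw [this]
      exact quadraticChar_sq_one' (inv_ne_zero h2)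
    have e2 : e t = (2 + t) * 4⁻¹ := div_eq_mul_inv _ _
    have e3 : 1 - e t = (2 - t) * 4⁻¹ := by
      rw [e2]
      field_simp
      ring
    show χ (2 + t) * χ (2 - t) = χ (e t) * χ (1 - e t)
    rw [e3, e2, map_mul, map_mul, e1]
    ring
  have htot : ∑ t : K, (1 - χ (2 + t)) * (1 - χ (2 - t)) = Fintype.card K - χ (-1) := by
    have h5 : ∀ t : K, (1 - χ (2 + t)) * (1 - χ (2 - t)) =
        1 - χ (2 + t) - χ (2 - t) + χ (2 + t) * χ (2 - t) := fun t => by ring
    simp only [h5]
    rw [Finset.sum_add_distrib, Finset.sum_sub_distrib, Finset.sum_sub_distrib, hs1, hs2, hs3]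
    simp
    ring
  set S : Finset K := Finset.univ.filter fun t => ¬ IsSquare (2 + t) ∧ ¬ IsSquare (2 - t) with hS
  have hle : ∑ t : K, (1 - χ (2 + t)) * (1 - χ (2 - t)) ≤ 4 * S.card := by
    have h5 : ∀ t : K, (1 - χ (2 + t)) * (1 - χ (2 - t)) ≤ if t ∈ S then 4 else 0 := by
      intro t
      by_cases ht : t ∈ S
      · rw [if_pos ht]
        rw [hS, Finset.mem_filter] at ht
        have e1 : χ (2 + t) = -1 := quadraticChar_neg_one_iff_not_isSquare.2 ht.2.1
        have e2 : χ (2 - t) = -1 := quadraticChar_neg_one_iff_not_isSquare.2 ht.2.2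
        rw [e1, e2]
        norm_num
      · rw [if_neg ht]
        have ht' : IsSquare (2 + t) ∨ IsSquare (2 - t) := by
          by_contra hc
          push Not at hc
          exact ht (by rw [hS, Finset.mem_filter]; exact ⟨Finset.mem_univ _, hc⟩)
        have key : ∀ a b : K, a + b = 4 → IsSquare a → (1 - χ a) * (1 - χ b) ≤ 0 := by
          intro a b hab ha
          by_cases ha0 : a = 0
          · have hb : b = 2 ^ 2 := by rw [ha0, zero_add] at hab; rw [hab]; norm_num
            have : χ b = 1 := by rw [hb]; exact quadraticChar_sq_one' h2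
            rw [this]
            simp
          · have : χ a = 1 := (quadraticChar_one_iff_isSquare ha0).2 ha
            rw [this]
            simp
        rcases ht' with h6 | h6
        · exact key _ _ (by ring) h6
        · rw [mul_comm]
          exact key _ _ (by ring) h6
    calc ∑ t : K, (1 - χ (2 + t)) * (1 - χ (2 - t)) ≤ ∑ t : K, (if t ∈ S then 4 else 0) :=
          Finset.sum_le_sum fun t _ => h5 t
      _ = 4 * S.card := by
          rw [Finset.sum_ite_mem, Finset.univ_inter, Finset.sum_const]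
          simp
          ring
  have hχm : χ (-1) ≤ 1 := by
    rcases quadraticChar_dichotomy (F := K) (a := -1) (by simp) with h6 | h6 <;> rw [hχ, h6]
    norm_num
  have hcard : (Fintype.card K : ℤ) ≤ 4 * S.card + 1 := by
    rw [htot] at hle
    linarith
  have hST : S.card ≤ {t : K | t ≠ 0 ∧ ¬ IsSquare (2 + t) ∧ ¬ IsSquare (2 - t)}.ncard + 1 := by
    have h6 : (S : Set K) ⊆ insert 0 {t : K | t ≠ 0 ∧ ¬ IsSquare (2 + t) ∧ ¬ IsSquare (2 - t)} := by
      intro t ht
      rw [Finset.mem_coe, hS, Finset.mem_filter] at ht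
      by_cases ht0 : t = 0
      · exact Or.inl ht0
      · exact Or.inr ⟨ht0, ht.2⟩
    rw [← Set.ncard_coe_finset]
    exact (Set.ncard_le_ncard h6 (Set.toFinite _)).trans (Set.ncard_insert_le _ _)
  rw [Nat.card_eq_fintype_card]
  have : Fintype.card K ≤ 4 * S.card + 1 := by exact_mod_cast hcard
  omega

end Pool.Agent.Y65.PS
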