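import Pool.Agent.W332.HalfB

/-!
# A word with the `SL₂`-character of a square which is not a proper power

`w = x³ y x² y⁻¹ x y x⁻¹ y⁻¹ x⁻¹ y x² y⁻¹ x⁻³ y x⁻¹ y⁻¹`.  With `s = tr x` and
`c = s² - tr (x (y x y⁻¹))` the trace of `w(x, y)` over every commutative ring is `f ^ 2 - 2` with
`f = s⁵c - 2s⁵ - s³c² - s³c + 6s³ + sc² - 5s`.
-/

set_option autoImplicit false

open Matrix
open scoped MatrixGroups

namespace Pool.Agent.Y65.PS

open Pool.Agent.W332.Half (comb comb_mul_a comb_mul_a' comb_mul_b comb_mul_b' trace_comb)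

section algebra

variable {R : Type*} [CommRing R]

/-- The trace of the word. -/
lemma trace_word (a b a' b' : Matrix (Fin 2) (Fin 2) R) (s c : R)
    (ha : a.trace = s) (hb : b.trace = s) (hab : (a * b).trace = s ^ 2 - c)
    (haa : a * a = s • a - 1) (hbb : b * b = s • b - 1)
    (hba : b * a = -(a * b) + s • a + s • b - c • 1) (ha' : a' = s • 1 - a)
    (hb' : b' = s • 1 - b) :
    (1 * a * a * a * b * b * a * b' * a' * b * b * a' * a' * a' * b').trace =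
      (s^5*c - 2*s^5 - s^3*c^2 - s^3*c + 6*s^3 + s*c^2 - 5*s) ^ 2 - 2 := by
  have k1 : comb a b (1) (0) (0) (0) * a =
      comb a b (0) (1) (0) (0) := by
    rw [comb_mul_a haa hba]
    congr 1 <;> ring
  have k2 : comb a b (0) (1) (0) (0) * a =
      comb a b (-1) (s) (0) (0) := by
    rw [comb_mul_a haa hba]
    congr 1 <;> ring
  have k3 : comb a b (-1) (s) (0) (0) * a =
      comb a b (-s) (s^2 - 1) (0) (0) := by
    rw [comb_mul_a haa hba]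
    congr 1 <;> ring
  have k4 : comb a b (-s) (s^2 - 1) (0) (0) * b =
      comb a b (0) (0) (-s) (s^2 - 1) := by
    rw [comb_mul_b hbb]
    congr 1 <;> ring
  have k5 : comb a b (0) (0) (-s) (s^2 - 1) * b =
      comb a b (s) (-s^2 + 1) (-s^2) (s^3 - s) := by
    rw [comb_mul_b hbb]
    congr 1 <;> ring
  have k6 : comb a b (s) (-s^2 + 1) (-s^2) (s^3 - s) * a =
      comb a b (-s^4 + s^2*c + 2*s^2 - 1) (s^5 - s^3*c - 3*s^3 + s*c + 2*s) (-s) (s^2) := by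
    rw [comb_mul_a haa hba]
    congr 1 <;> ring
  have k7 : comb a b (-s^4 + s^2*c + 2*s^2 - 1) (s^5 - s^3*c - 3*s^3 + s*c + 2*s) (-s) (s^2) * b' =
      comb a b (-s^5 + s^3*c + 2*s^3 - 2*s) (s^6 - s^4*c - 3*s^4 + s^2*c + 3*s^2) (s^4 - s^2*c - 2*s^2 + 1) (-s^5 + s^3*c + 3*s^3 - s*c - 2*s) := by
    rw [comb_mul_b' hb' hbb]
    congr 1 <;> ring
  have k8 : comb a b (-s^5 + s^3*c + 2*s^3 - 2*s) (s^6 - s^4*c - 3*s^4 + s^2*c + 3*s^2) (s^4 - s^2*c - 2*s^2 + 1) (-s^5 + s^3*c + 3*s^3 - s*c - 2*s) * a' =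
      comb a b (-s^6 + 2*s^4*c + 2*s^4 - s^2*c^2 - 2*s^2*c - s^2 + c) (s^7 - 2*s^5*c - 3*s^5 + s^3*c^2 + 4*s^3*c + 2*s^3 - s*c^2 - 2*s*c + s) (s^5 - s^3*c - 3*s^3 + s*c + 2*s) (-s^6 + s^4*c + 4*s^4 - 2*s^2*c - 4*s^2 + 1) := by
    rw [comb_mul_a' ha' haa hba]
    congr 1 <;> ring
  have k9 : comb a b (-s^6 + 2*s^4*c + 2*s^4 - s^2*c^2 - 2*s^2*c - s^2 + c) (s^7 - 2*s^5*c - 3*s^5 + s^3*c^2 + 4*s^3*c + 2*s^3 - s*c^2 - 2*s*c + s) (s^5 - s^3*c - 3*s^3 + s*c + 2*s) (-s^6 + s^4*c + 4*s^4 - 2*s^2*c - 4*s^2 + 1) * b =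
      comb a b (-s^5 + s^3*c + 3*s^3 - s*c - 2*s) (s^6 - s^4*c - 4*s^4 + 2*s^2*c + 4*s^2 - 1) (s^4*c - s^4 - s^2*c^2 - s^2*c + s^2 + c) (-s^5*c + s^5 + s^3*c^2 + 2*s^3*c - 2*s^3 - s*c^2 - 2*s*c + 2*s) := by
    rw [comb_mul_b hbb]
    congr 1 <;> ring
  have k10 : comb a b (-s^5 + s^3*c + 3*s^3 - s*c - 2*s) (s^6 - s^4*c - 4*s^4 + 2*s^2*c + 4*s^2 - 1) (s^4*c - s^4 - s^2*c^2 - s^2*c + s^2 + c) (-s^5*c + s^5 + s^3*c^2 + 2*s^3*c - 2*s^3 - s*c^2 - 2*s*c + 2*s) * b =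
      comb a b (-s^4*c + s^4 + s^2*c^2 + s^2*c - s^2 - c) (s^5*c - s^5 - s^3*c^2 - 2*s^3*c + 2*s^3 + s*c^2 + 2*s*c - 2*s) (s^5*c - 2*s^5 - s^3*c^2 + 4*s^3 - 2*s) (-s^6*c + 2*s^6 + s^4*c^2 + s^4*c - 6*s^4 - s^2*c^2 + 6*s^2 - 1) := by
    rw [comb_mul_b hbb]
    congr 1 <;> ring
  have k11 : comb a b (-s^4*c + s^4 + s^2*c^2 + s^2*c - s^2 - c) (s^5*c - s^5 - s^3*c^2 - 2*s^3*c + 2*s^3 + s*c^2 + 2*s*c - 2*s) (s^5*c - 2*s^5 - s^3*c^2 + 4*s^3 - 2*s) (-s^6*c + 2*s^6 + s^4*c^2 + s^4*c - 6*s^4 - s^2*c^2 + 6*s^2 - 1) * a' =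
      comb a b (-s^7*c + 2*s^7 + 2*s^5*c^2 - s^5*c - 6*s^5 - s^3*c^3 - s^3*c^2 + 3*s^3*c + 7*s^3 + s*c^2 - s*c - 3*s) (s^8*c - 2*s^8 - 2*s^6*c^2 + 8*s^6 + s^4*c^3 + 3*s^4*c^2 - 5*s^4*c - 11*s^4 - s^2*c^3 - s^2*c^2 + 5*s^2*c + 4*s^2) (s^6*c - 2*s^6 - s^4*c^2 - s^4*c + 6*s^4 + s^2*c^2 - 6*s^2 + 1) (-s^7*c + 2*s^7 + s^5*c^2 + 2*s^5*c - 8*s^5 - 2*s^3*c^2 + 10*s^3 - 3*s) := by
    rw [comb_mul_a' ha' haa hba]
    congr 1 <;> ring
  have k12 : comb a b (-s^7*c + 2*s^7 + 2*s^5*c^2 - s^5*c - 6*s^5 - s^3*c^3 - s^3*c^2 + 3*s^3*c + 7*s^3 + s*c^2 - s*c - 3*s) (s^8*c - 2*s^8 - 2*s^6*c^2 + 8*s^6 + s^4*c^3 + 3*s^4*c^2 - 5*s^4*c - 11*s^4 - s^2*c^3 - s^2*c^2 + 5*s^2*c + 4*s^2) (s^6*c - 2*s^6 - s^4*c^2 - s^4*c + 6*s^4 + s^2*c^2 - 6*s^2 + 1) (-s^7*c + 2*s^7 + s^5*c^2 + 2*s^5*c - 8*s^5 - 2*s^3*c^2 + 10*s^3 - 3*s) * a' =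
      comb a b (-s^8*c + 2*s^8 + 2*s^6*c^2 - s^6*c - 6*s^6 - s^4*c^3 - s^4*c^2 + 4*s^4*c + 6*s^4 - 2*s^2*c - 2*s^2 + c) (s^9*c - 2*s^9 - 2*s^7*c^2 + 8*s^7 + s^5*c^3 + 3*s^5*c^2 - 6*s^5*c - 10*s^5 - s^3*c^3 + 7*s^3*c + 2*s^3 - s*c^2 - 2*s*c + 2*s) (s^7*c - 2*s^7 - s^5*c^2 - 2*s^5*c + 8*s^5 + 2*s^3*c^2 - 10*s^3 + 3*s) (-s^8*c + 2*s^8 + s^6*c^2 + 3*s^6*c - 10*s^6 - 3*s^4*c^2 - s^4*c + 16*s^4 + s^2*c^2 - 9*s^2 + 1) := by
    rw [comb_mul_a' ha' haa hba]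
    congr 1 <;> ring
  have k13 : comb a b (-s^8*c + 2*s^8 + 2*s^6*c^2 - s^6*c - 6*s^6 - s^4*c^3 - s^4*c^2 + 4*s^4*c + 6*s^4 - 2*s^2*c - 2*s^2 + c) (s^9*c - 2*s^9 - 2*s^7*c^2 + 8*s^7 + s^5*c^3 + 3*s^5*c^2 - 6*s^5*c - 10*s^5 - s^3*c^3 + 7*s^3*c + 2*s^3 - s*c^2 - 2*s*c + 2*s) (s^7*c - 2*s^7 - s^5*c^2 - 2*s^5*c + 8*s^5 + 2*s^3*c^2 - 10*s^3 + 3*s) (-s^8*c + 2*s^8 + s^6*c^2 + 3*s^6*c - 10*s^6 - 3*s^4*c^2 - s^4*c + 16*s^4 + s^2*c^2 - 9*s^2 + 1) * a' =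
      comb a b (-s^9*c + 2*s^9 + 2*s^7*c^2 - 8*s^7 - s^5*c^3 - 3*s^5*c^2 + 5*s^5*c + 12*s^5 + s^3*c^3 + s^3*c^2 - 5*s^3*c - 9*s^3 - s*c^2 + 2*s*c + 3*s) (s^10*c - 2*s^10 - 2*s^8*c^2 - s^8*c + 10*s^8 + s^6*c^3 + 5*s^6*c^2 - 6*s^6*c - 18*s^6 - 2*s^4*c^3 - 3*s^4*c^2 + 12*s^4*c + 13*s^4 + s^2*c^3 - 7*s^2*c - 2*s^2) (s^8*c - 2*s^8 - s^6*c^2 - 3*s^6*c + 10*s^6 + 3*s^4*c^2 + s^4*c - 16*s^4 - s^2*c^2 + 9*s^2 - 1) (-s^9*c + 2*s^9 + s^7*c^2 + 4*s^7*c - 12*s^7 - 4*s^5*c^2 - 3*s^5*c + 24*s^5 + 3*s^3*c^2 - 19*s^3 + 4*s) := by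
    rw [comb_mul_a' ha' haa hba]
    congr 1 <;> ring
  have k14 : comb a b (-s^9*c + 2*s^9 + 2*s^7*c^2 - 8*s^7 - s^5*c^3 - 3*s^5*c^2 + 5*s^5*c + 12*s^5 + s^3*c^3 + s^3*c^2 - 5*s^3*c - 9*s^3 - s*c^2 + 2*s*c + 3*s) (s^10*c - 2*s^10 - 2*s^8*c^2 - s^8*c + 10*s^8 + s^6*c^3 + 5*s^6*c^2 - 6*s^6*c - 18*s^6 - 2*s^4*c^3 - 3*s^4*c^2 + 12*s^4*c + 13*s^4 + s^2*c^3 - 7*s^2*c - 2*s^2) (s^8*c - 2*s^8 - s^6*c^2 - 3*s^6*c + 10*s^6 + 3*s^4*c^2 + s^4*c - 16*s^4 - s^2*c^2 + 9*s^2 - 1) (-s^9*c + 2*s^9 + s^7*c^2 + 4*s^7*c - 12*s^7 - 4*s^5*c^2 - 3*s^5*c + 24*s^5 + 3*s^3*c^2 - 19*s^3 + 4*s) * b' =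
      comb a b (-s^10*c + 2*s^10 + 2*s^8*c^2 + s^8*c - 10*s^8 - s^6*c^3 - 4*s^6*c^2 + 2*s^6*c + 22*s^6 + s^4*c^3 + 4*s^4*c^2 - 4*s^4*c - 25*s^4 - 2*s^2*c^2 + 2*s^2*c + 12*s^2 - 1) (s^11*c - 2*s^11 - 2*s^9*c^2 - 2*s^9*c + 12*s^9 + s^7*c^3 + 6*s^7*c^2 - 2*s^7*c - 30*s^7 - 2*s^5*c^3 - 7*s^5*c^2 + 9*s^5*c + 37*s^5 + s^3*c^3 + 3*s^3*c^2 - 7*s^3*c - 21*s^3 + 4*s) (s^9*c - 2*s^9 - 2*s^7*c^2 + 8*s^7 + s^5*c^3 + 3*s^5*c^2 - 5*s^5*c - 12*s^5 - s^3*c^3 - s^3*c^2 + 5*s^3*c + 9*s^3 + s*c^2 - 2*s*c - 3*s) (-s^10*c + 2*s^10 + 2*s^8*c^2 + s^8*c - 10*s^8 - s^6*c^3 - 5*s^6*c^2 + 6*s^6*c + 18*s^6 + 2*s^4*c^3 + 3*s^4*c^2 - 12*s^4*c - 13*s^4 - s^2*c^3 + 7*s^2*c + 2*s^2) := by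
    rw [comb_mul_b' hb' hbb]
    congr 1 <;> ring
  have h0 : (1 : Matrix (Fin 2) (Fin 2) R) = comb a b (1) (0) (0) (0) := by
    unfold comb; module
  rw [h0, k1, k2, k3, k4, k5, k6, k7, k8, k9, k10, k11, k12, k13, k14, trace_comb a b s c ha hb hab]
  ring

end algebra

section word

/-- The value of the word at a pair of group elements. -/
def wordVal {G : Type*} [Group G] (x y : G) : G :=
  x ^ 3 * y * x ^ 2 * y⁻¹ * x * y * x⁻¹ * y⁻¹ * x⁻¹ * y * x ^ 2 * y⁻¹ * (x ^ 3)⁻¹ * y * x⁻¹ * y⁻¹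

/-- The word itself, as an element of the free group on the letters `0` (for `x`) and `1`
(for `y`). -/
def word : FreeGroup (Fin 2) :=
  FreeGroup.of 0 ^ 3 * FreeGroup.of 1 * FreeGroup.of 0 ^ 2 * (FreeGroup.of 1)⁻¹ *
    FreeGroup.of 0 * FreeGroup.of 1 * (FreeGroup.of 0)⁻¹ * (FreeGroup.of 1)⁻¹ *
    (FreeGroup.of 0)⁻¹ * FreeGroup.of 1 * FreeGroup.of 0 ^ 2 * (FreeGroup.of 1)⁻¹ *
    (FreeGroup.of 0 ^ 3)⁻¹ * FreeGroup.of 1 * (FreeGroup.of 0)⁻¹ * (FreeGroup.of 1)⁻¹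

lemma lift_word {G : Type*} [Group G] (x y : G) : FreeGroup.lift ![x, y] word = wordVal x y := by
  unfold word wordVal
  simp only [map_mul, map_pow, map_inv, FreeGroup.lift_apply_of, Matrix.cons_val_zero,
    Matrix.cons_val_one]

lemma wordVal_eq {G : Type*} [Group G] (x y : G) :
    wordVal x y = 1 * x * x * x * (y * x * y⁻¹) * (y * x * y⁻¹) * x * (y * x * y⁻¹)⁻¹ * x⁻¹ *
      (y * x * y⁻¹) * (y * x * y⁻¹) * x⁻¹ * x⁻¹ * x⁻¹ * (y * x * y⁻¹)⁻¹ := by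
  have h3 : x ^ 3 = x * x * x := by simp only [pow_succ, pow_zero, one_mul]
  have h2 : x ^ 2 = x * x := by simp only [pow_succ, pow_zero, one_mul]
  unfold wordVal
  rw [h3, h2]
  group

/-- the reduced word, as a list of letters -/
def letters : List (Fin 2 × Bool) :=
  [(0, true), (0, true), (0, true), (1, true), (0, true), (0, true), (1, false), (0, true),
    (1, true), (0, false), (1, false), (0, false), (1, true), (0, true), (0, true), (1, false),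
    (0, false), (0, false), (0, false), (1, true), (0, false), (1, false)]

lemma toWord_word : word.toWord = letters := by
  decide +kernel

lemma letters_flatten (c : List (Fin 2 × Bool)) (n : ℕ)
    (h : (List.replicate (n + 2) c).flatten = letters) : False := by
  have hlen : (n + 2) * c.length = 22 := by
    have := congrArg List.length h
    simpa [letters] using this
  -- the word is invariant under the rotation by `c.length`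
  have hrot : letters.rotate c.length = letters := by
    rw [← h, show n + 2 = (n + 1) + 1 from rfl, List.replicate_succ, List.flatten_cons,
      List.rotate_append_length_eq]
    have h1 : (List.replicate (n + 1) c).flatten ++ c = (List.replicate (n + 1 + 1) c).flatten := by
      rw [← List.flatten_concat, ← List.replicate_succ']
    rw [h1, List.replicate_succ, List.flatten_cons]
  have hle : c.length ≤ 11 := by nlinarith
  have hpos : 0 < c.length := by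
    rcases Nat.eq_zero_or_pos c.length with h0 | h0
    · rw [h0] at hlen
      omega
    · exact h0
  generalize c.length = m at hrot hle hpos
  interval_cases m <;> revert hrot <;> decide +kernel

/-- The word is not a proper power. -/
lemma not_pow (v : FreeGroup (Fin 2)) (k : ℕ) (hk : 2 ≤ k) : v ^ k ≠ word := by
  intro h
  obtain ⟨n, rfl⟩ := Nat.exists_eq_add_of_le hk
  have h1 : (v ^ (2 + n)).toWord = FreeGroup.reduce (List.replicate (n + 1 + 1) v.toWord).flatten := by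
    rw [FreeGroup.toWord_pow, show 2 + n = n + 1 + 1 by ring]
  rw [h, toWord_word, FreeGroup.reduceCyclically.reduce_flatten_replicate_succ
    (FreeGroup.isReduced_toWord)] at h1
  rcases hc : FreeGroup.reduceCyclically.conjugator v.toWord with _ | ⟨a, l⟩
  · rw [hc] at h1
    simp only [FreeGroup.invRev_empty, List.nil_append, List.append_nil] at h1
    exact letters_flatten _ n h1.symm
  · rw [hc] at h1
    have hh : letters.head? = some a := by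
      rw [h1]
      simp
    have hl : letters.getLast? = some (a.1, !a.2) := by
      rw [h1]
      simp only [FreeGroup.invRev, List.map_cons, List.reverse_cons]
      rw [← List.append_assoc, List.getLast?_concat]
    have e1 : letters.head? = some (0, true) := rfl
    have e2 : letters.getLast? = some (1, false) := by decide
    rw [e1] at hh
    rw [e2] at hl
    have h3 := Option.some.inj hh
    have h4 := Option.some.inj hl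
    rw [← h3] at h4
    exact absurd h4 (by decide)

end word

/-- The trace of the value of the word on `SL(2, F)`. -/
lemma trace_wordVal {F : Type*} [CommRing F] (X Y : SL(2, F)) :
    ∃ f : F, ((wordVal X Y : SL(2, F)) : Matrix (Fin 2) (Fin 2) F).trace = f ^ 2 - 2 := by
  set B : SL(2, F) := Y * X * Y⁻¹ with hB
  set a : Matrix (Fin 2) (Fin 2) F := (X : Matrix (Fin 2) (Fin 2) F) with ha
  set b : Matrix (Fin 2) (Fin 2) F := (B : Matrix (Fin 2) (Fin 2) F) with hb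
  have hda : a 0 0 * a 1 1 - a 0 1 * a 1 0 = 1 := by
    have := X.det_coe
    rwa [Matrix.det_fin_two] at this
  have hdb : b 0 0 * b 1 1 - b 0 1 * b 1 0 = 1 := by
    have := B.det_coe
    rwa [Matrix.det_fin_two] at this
  have htb : b.trace = a.trace := by
    have h1 : b = (Y : Matrix (Fin 2) (Fin 2) F) * a * ((Y⁻¹ : SL(2, F)) : Matrix (Fin 2) (Fin 2) F) := by
      rw [hb, hB, Matrix.SpecialLinearGroup.coe_mul, Matrix.SpecialLinearGroup.coe_mul]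
    rw [h1, Matrix.trace_mul_comm, ← mul_assoc, ← Matrix.SpecialLinearGroup.coe_mul, inv_mul_cancel,
      Matrix.SpecialLinearGroup.coe_one, one_mul]
  have hta : a.trace = a 0 0 + a 1 1 := Matrix.trace_fin_two a
  have htb' : b 0 0 + b 1 1 = a 0 0 + a 1 1 := by
    rw [← Matrix.trace_fin_two b, htb, hta]
  set s : F := a 0 0 + a 1 1 with hs
  set b' : Matrix (Fin 2) (Fin 2) F := s • 1 - b with hb'
  set a' : Matrix (Fin 2) (Fin 2) F := s • 1 - a with ha'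
  have hinv : ((B⁻¹ : SL(2, F)) : Matrix (Fin 2) (Fin 2) F) = b' := by
    rw [Matrix.SpecialLinearGroup.coe_inv, Matrix.adjugate_fin_two, hb']
    ext i j
    fin_cases i <;> fin_cases j <;> simp [← hb, ← htb']
  have hinva : ((X⁻¹ : SL(2, F)) : Matrix (Fin 2) (Fin 2) F) = a' := by
    rw [Matrix.SpecialLinearGroup.coe_inv, Matrix.adjugate_fin_two, ha']
    ext i j
    fin_cases i <;> fin_cases j <;> simp [← ha, hs]
  have haa : a * a = s • a - 1 := by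
    ext i j
    fin_cases i <;> fin_cases j <;> simp [Matrix.mul_apply, Fin.sum_univ_two, hs]
    · linear_combination -hda
    · ring
    · ring
    · linear_combination -hda
  have hbb : b * b = s • b - 1 := by
    ext i j
    fin_cases i <;> fin_cases j <;> simp [Matrix.mul_apply, Fin.sum_univ_two, ← htb']
    · linear_combination -hdb
    · ring
    · ring
    · linear_combination -hdb
  have hba : b * a = -(a * b) + s • a + s • b - (s ^ 2 - (a * b).trace) • 1 := by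
    have e1 : b 1 1 = a 0 0 + a 1 1 - b 0 0 := by linear_combination htb'
    ext i j
    fin_cases i <;> fin_cases j <;>
      simp [Matrix.mul_apply, Fin.sum_univ_two, hs, Matrix.trace_fin_two, e1] <;> ring
  set c : F := s ^ 2 - (a * b).trace with hc
  refine ⟨s^5*c - 2*s^5 - s^3*c^2 - s^3*c + 6*s^3 + s*c^2 - 5*s, ?_⟩
  rw [wordVal_eq]
  simp only [Matrix.SpecialLinearGroup.coe_mul, Matrix.SpecialLinearGroup.coe_one]
  simp only [← Matrix.SpecialLinearGroup.coe_mul, ← hB]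
  simp only [hinv, hinva, ← ha, ← hb]
  exact trace_word a b a' b' s c hta (by rw [htb, hta]) (by rw [hc]; ring) haa hbb hba ha' hb'

end Pool.Agent.Y65.PS
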